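import Pool.Agent.NNe.Chk

set_option linter.all false
set_option maxRecDepth 1000000
namespace Pool.Agent.NNr.R11_1_2_2

open Pool.Agent.NNe

noncomputable def C3_0 : Cd := (Cd.mk (nat_lit 0) (nat_lit 5) (nat_lit 1280) (nat_lit 0) (nat_lit 0) (nat_lit 0) (nat_lit 0) Sl.nil)
noncomputable def C3_1 : Cd := (Cd.mk (nat_lit 0) (nat_lit 5) (nat_lit 1040) (nat_lit 0) (nat_lit 0) (nat_lit 0) (nat_lit 0) Sl.nil)
noncomputable def C3_2 : Cd := (Cd.mk (nat_lit 0) (nat_lit 5) (nat_lit 800) (nat_lit 0) (nat_lit 0) (nat_lit 0) (nat_lit 0) Sl.nil)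
noncomputable def C3_3 : Cd := (Cd.mk (nat_lit 0) (nat_lit 5) (nat_lit 560) (nat_lit 0) (nat_lit 0) (nat_lit 0) (nat_lit 0) Sl.nil)
noncomputable def C3_4 : Cd := (Cd.mk (nat_lit 0) (nat_lit 5) (nat_lit 320) (nat_lit 0) (nat_lit 0) (nat_lit 0) (nat_lit 0) Sl.nil)
noncomputable def C3_5 : Cd := (Cd.mk (nat_lit 0) (nat_lit 5) (nat_lit 80) (nat_lit 0) (nat_lit 0) (nat_lit 0) (nat_lit 0) Sl.nil)
noncomputable def SI3_6 : Nat := (nat_lit 0)
noncomputable def SW3_6 : Nat := (nat_lit 0x8002000)
noncomputable def RV3_6 : Nat := (nat_lit 0x194000192000190000)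
noncomputable def CO3_6 : Nat := (nat_lit 0x2654a026549026548)
noncomputable def C3_6 : Cd := (Cd.mk (nat_lit 3) (nat_lit 6) (nat_lit 1026) SI3_6 SW3_6 RV3_6 CO3_6 (Sl.cons (Sd.mk (nat_lit 9) (nat_lit 8) (nat_lit 0) (nat_lit 3) (Sb.cons (nat_lit 8) (nat_lit 0) (nat_lit 3) Sb.nil) Bl.nil) Sl.nil))
noncomputable def SI3_7 : Nat := (nat_lit 0x100401004010040000000)
noncomputable def SW3_7 : Nat := (nat_lit 0x800380180040010000014008003)
noncomputable def RV3_7 : Nat := (nat_lit 0x19400119200119000119200319000318e00019200619000618e003)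
noncomputable def CO3_7 : Nat := (nat_lit 0x2654a026549026548025589025588025587016649016648016647)
noncomputable def C3_7 : Cd := (Cd.mk (nat_lit 9) (nat_lit 6) (nat_lit 786) SI3_7 SW3_7 RV3_7 CO3_7 (Sl.cons (Sd.mk (nat_lit 5) (nat_lit 4) (nat_lit 0) (nat_lit 3) (Sb.cons (nat_lit 8) (nat_lit 0) (nat_lit 3) Sb.nil) Bl.nil) (Sl.cons (Sd.mk (nat_lit 9) (nat_lit 8) (nat_lit 3) (nat_lit 6) (Sb.cons (nat_lit 4) (nat_lit 0) (nat_lit 3) (Sb.cons (nat_lit 8) (nat_lit 3) (nat_lit 3) Sb.nil)) Bl.nil) Sl.nil)))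
noncomputable def SI3_8 : Nat := (nat_lit 0x4010040100401000000000000000)
noncomputable def SW3_8 : Nat := (nat_lit 0x58028012005002000c0100070030008002000)
noncomputable def RV3_8 : Nat := (nat_lit 0x19400219200219000219200419000418e00119200719000718e00419000918e00618c000)
noncomputable def CO3_8 : Nat := (nat_lit 0x2654a026549026548025589025588025587016649016648016647015688015687015686)
noncomputable def C3_8 : Cd := (Cd.mk (nat_lit 12) (nat_lit 6) (nat_lit 546) SI3_8 SW3_8 RV3_8 CO3_8 (Sl.cons (Sd.mk (nat_lit 5) (nat_lit 4) (nat_lit 0) (nat_lit 6) (Sb.cons (nat_lit 4) (nat_lit 0) (nat_lit 3) (Sb.cons (nat_lit 8) (nat_lit 3) (nat_lit 3) Sb.nil)) Bl.nil) (Sl.cons (Sd.mk (nat_lit 9) (nat_lit 8) (nat_lit 6) (nat_lit 6) (Sb.cons (nat_lit 4) (nat_lit 0) (nat_lit 3) (Sb.cons (nat_lit 8) (nat_lit 3) (nat_lit 3) Sb.nil)) Bl.nil) Sl.nil)))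
noncomputable def SI3_9 : Nat := (nat_lit 0x100401000000000000000)
noncomputable def SW3_9 : Nat := (nat_lit 0x5002000c0100070030008002000)
noncomputable def RV3_9 : Nat := (nat_lit 0x19200519000518e00219200819000818e00519000a18e00718c001)
noncomputable def CO3_9 : Nat := (nat_lit 0x25589025588025587016649016648016647015688015687015686)
noncomputable def C3_9 : Cd := (Cd.mk (nat_lit 9) (nat_lit 6) (nat_lit 306) SI3_9 SW3_9 RV3_9 CO3_9 (Sl.cons (Sd.mk (nat_lit 5) (nat_lit 4) (nat_lit 0) (nat_lit 6) (Sb.cons (nat_lit 4) (nat_lit 0) (nat_lit 3) (Sb.cons (nat_lit 8) (nat_lit 3) (nat_lit 3) Sb.nil)) Bl.nil) (Sl.cons (Sd.mk (nat_lit 9) (nat_lit 8) (nat_lit 6) (nat_lit 3) (Sb.cons (nat_lit 4) (nat_lit 0) (nat_lit 3) Sb.nil) Bl.nil) Sl.nil)))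
noncomputable def SI3_10 : Nat := (nat_lit 0)
noncomputable def SW3_10 : Nat := (nat_lit 0x8002000)
noncomputable def RV3_10 : Nat := (nat_lit 0x19000b18e00818c002)
noncomputable def CO3_10 : Nat := (nat_lit 0x15688015687015686)
noncomputable def C3_10 : Cd := (Cd.mk (nat_lit 3) (nat_lit 6) (nat_lit 66) SI3_10 SW3_10 RV3_10 CO3_10 (Sl.cons (Sd.mk (nat_lit 5) (nat_lit 4) (nat_lit 0) (nat_lit 3) (Sb.cons (nat_lit 4) (nat_lit 0) (nat_lit 3) Sb.nil) Bl.nil) Sl.nil))
noncomputable def C3_11 : Cd := (Cd.mk (nat_lit 0) (nat_lit 7) (nat_lit 772) (nat_lit 0) (nat_lit 0) (nat_lit 0) (nat_lit 0) Sl.nil)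
noncomputable def C3_12 : Cd := (Cd.mk (nat_lit 0) (nat_lit 7) (nat_lit 532) (nat_lit 0) (nat_lit 0) (nat_lit 0) (nat_lit 0) Sl.nil)
noncomputable def C3_13 : Cd := (Cd.mk (nat_lit 0) (nat_lit 7) (nat_lit 292) (nat_lit 0) (nat_lit 0) (nat_lit 0) (nat_lit 0) Sl.nil)
noncomputable def C3_14 : Cd := (Cd.mk (nat_lit 0) (nat_lit 7) (nat_lit 52) (nat_lit 0) (nat_lit 0) (nat_lit 0) (nat_lit 0) Sl.nil)
noncomputable def C3_15 : Cd := (Cd.mk (nat_lit 0) (nat_lit 8) (nat_lit 518) (nat_lit 0) (nat_lit 0) (nat_lit 0) (nat_lit 0) Sl.nil)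
noncomputable def C3_16 : Cd := (Cd.mk (nat_lit 0) (nat_lit 8) (nat_lit 278) (nat_lit 0) (nat_lit 0) (nat_lit 0) (nat_lit 0) Sl.nil)
noncomputable def C3_17 : Cd := (Cd.mk (nat_lit 0) (nat_lit 8) (nat_lit 38) (nat_lit 0) (nat_lit 0) (nat_lit 0) (nat_lit 0) Sl.nil)
noncomputable def C3_18 : Cd := (Cd.mk (nat_lit 0) (nat_lit 9) (nat_lit 264) (nat_lit 0) (nat_lit 0) (nat_lit 0) (nat_lit 0) Sl.nil)
noncomputable def C3_19 : Cd := (Cd.mk (nat_lit 0) (nat_lit 9) (nat_lit 24) (nat_lit 0) (nat_lit 0) (nat_lit 0) (nat_lit 0) Sl.nil)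
noncomputable def C3_20 : Cd := (Cd.mk (nat_lit 0) (nat_lit 10) (nat_lit 10) (nat_lit 0) (nat_lit 0) (nat_lit 0) (nat_lit 0) Sl.nil)
noncomputable def C3_21 : Cd := (Cd.mk (nat_lit 0) (nat_lit 4) (nat_lit 4609) (nat_lit 0) (nat_lit 0) (nat_lit 0) (nat_lit 0) Sl.nil)
noncomputable def C3_22 : Cd := (Cd.mk (nat_lit 0) (nat_lit 4) (nat_lit 4369) (nat_lit 0) (nat_lit 0) (nat_lit 0) (nat_lit 0) Sl.nil)
noncomputable def C3_23 : Cd := (Cd.mk (nat_lit 0) (nat_lit 4) (nat_lit 4129) (nat_lit 0) (nat_lit 0) (nat_lit 0) (nat_lit 0) Sl.nil)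
noncomputable def C3_24 : Cd := (Cd.mk (nat_lit 0) (nat_lit 5) (nat_lit 4355) (nat_lit 0) (nat_lit 0) (nat_lit 0) (nat_lit 0) Sl.nil)
noncomputable def C3_25 : Cd := (Cd.mk (nat_lit 0) (nat_lit 5) (nat_lit 4115) (nat_lit 0) (nat_lit 0) (nat_lit 0) (nat_lit 0) Sl.nil)
noncomputable def C3_26 : Cd := (Cd.mk (nat_lit 0) (nat_lit 6) (nat_lit 4101) (nat_lit 0) (nat_lit 0) (nat_lit 0) (nat_lit 0) Sl.nil)
noncomputable def CL3 : Cl := (Cl.cons C3_0 (Cl.cons C3_1 (Cl.cons C3_2 (Cl.cons C3_3 (Cl.cons C3_4 (Cl.cons C3_5 (Cl.cons C3_6 (Cl.cons C3_7 (Cl.cons C3_8 (Cl.cons C3_9 (Cl.cons C3_10 (Cl.cons C3_11 (Cl.cons C3_12 (Cl.cons C3_13 (Cl.cons C3_14 (Cl.cons C3_15 (Cl.cons C3_16 (Cl.cons C3_17 (Cl.cons C3_18 (Cl.cons C3_19 (Cl.cons C3_20 (Cl.cons C3_21 (Cl.cons C3_22 (Cl.cons C3_23 (Cl.cons C3_24 (Cl.cons C3_25 (Cl.cons C3_26 Cl.nil)))))))))))))))))))))))))))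
noncomputable def AL3_0 : Nat := (nat_lit 0)
noncomputable def A43_0 : Nat := (nat_lit 0)
noncomputable def IX3_0 : Nat := (nat_lit 0)
noncomputable def OL3_0 : Nat := (nat_lit 0)
noncomputable def AL3_1 : Nat := (nat_lit 0)
noncomputable def A43_1 : Nat := (nat_lit 0)
noncomputable def IX3_1 : Nat := (nat_lit 0)
noncomputable def OL3_1 : Nat := (nat_lit 0)
noncomputable def AL3_2 : Nat := (nat_lit 0)
noncomputable def A43_2 : Nat := (nat_lit 0)
noncomputable def IX3_2 : Nat := (nat_lit 0)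
noncomputable def OL3_2 : Nat := (nat_lit 0)
noncomputable def AL3_3 : Nat := (nat_lit 0)
noncomputable def A43_3 : Nat := (nat_lit 0)
noncomputable def IX3_3 : Nat := (nat_lit 0)
noncomputable def OL3_3 : Nat := (nat_lit 0)
noncomputable def AL3_4 : Nat := (nat_lit 0)
noncomputable def A43_4 : Nat := (nat_lit 0)
noncomputable def IX3_4 : Nat := (nat_lit 0)
noncomputable def OL3_4 : Nat := (nat_lit 0)
noncomputable def AL3_5 : Nat := (nat_lit 0)
noncomputable def A43_5 : Nat := (nat_lit 0)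
noncomputable def IX3_5 : Nat := (nat_lit 0)
noncomputable def OL3_5 : Nat := (nat_lit 0)
noncomputable def AL3_6 : Nat := (nat_lit 0x307cbfbf)
noncomputable def A43_6 : Nat := (nat_lit 0x1c0000)
noncomputable def IX3_6 : Nat := (nat_lit 0x200000000000010000000000000000000000000000000000000000000000000000000000000000000000000000000000000000000000000000000000000000000000000000000000000000000000000000000000000000000000000000000000000000000000000000000000000000000000000000000000000000000000000000000)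
noncomputable def OL3_6 : Nat := (nat_lit 0x1400260048)
noncomputable def AL3_7 : Nat := (nat_lit 0x3060ff39839fe7f)
noncomputable def A43_7 : Nat := (nat_lit 0x3f380000000)
noncomputable def IX3_7 : Nat := (nat_lit 0x800000000000070000000000006000000000000500000000000040000000000003000000000000000000000000000000000000002000000000000100000000000000000000000000000000000000000000000000000000000000000000000000000000000000000000000000000000000000000000000000000000000000000000000000000000000000000000000000000000000000000000000000000000000000000000000000000000000000000000000000000000000000000000000000000000000000000000000000000000000000000000000000000000000000000000000000000000000000000000000000000000000000000000000000000000000000000000000000000000)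
noncomputable def OL3_7 : Nat := (nat_lit 0xa40140027004c009401200210040007c)
noncomputable def AL3_8 : Nat := (nat_lit 0xc183fcfcc1839fe7f)
noncomputable def A43_8 : Nat := (nat_lit 0xfcfc000000000)
noncomputable def IX3_8 : Nat := (nat_lit 0xb000000000000a00000000000090000000000008000000000000700000000000060000000000000000000000000000000000000050000000000004000000000000300000000000020000000000001000000000000000000000000000000000000000000000000000000000000000000000000000000000000000000000000000000000000000000000000000000000000000000000000000000000000000000000000000000000000000000000000000000000000000000000000000000000000000000000000000000000000000000000000000000000000000000000000000000000000000000000000000000000000000000000000000000000000000000000000000000000000000000000000000000000000000000000000000000000000000000000000000000000000000000000000000000000000000000000000000000000000000000000000000)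
noncomputable def OL3_8 : Nat := (nat_lit 0x198032006200c0017802e005600a80148028004e0098)
noncomputable def AL3_9 : Nat := (nat_lit 0x307cfcc1839fe7f)
noncomputable def A43_9 : Nat := (nat_lit 0x1cfc000000000)
noncomputable def IX3_9 : Nat := (nat_lit 0x8000000000000700000000000060000000000000000000000000000000000000050000000000004000000000000300000000000020000000000001000000000000000000000000000000000000000000000000000000000000000000000000000000000000000000000000000000000000000000000000000000000000000000000000000000000000000000000000000000000000000000000000000000000000000000000000000000000000000000000000000000000000000000000000000000000000000000000000000000000000000000000000000000000000000000000000000000000000000000000000000000000000000000000000000000000000000000000000000000000000000000000000000000000000000000000000000000000000000000000000000000000000000000000000000)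
noncomputable def OL3_9 : Nat := (nat_lit 0xc0017802e005600a80148028004e0098)
noncomputable def AL3_10 : Nat := (nat_lit 0x39837f7f)
noncomputable def A43_10 : Nat := (nat_lit 0x38000000)
noncomputable def IX3_10 : Nat := (nat_lit 0x200000000000010000000000000000000000000000000000000000000000000000000000000000000000000000000000000000000000000000000000000000000000000000000000000000000000000000000000000000000000000000000000000000000000000000000000000000000000000000000000000000000000000000000000000000000000000000000000000000000000000000000000000000000000000000000000000000000000000000000000000000000000000000)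
noncomputable def OL3_10 : Nat := (nat_lit 0x1d0038006c)
noncomputable def AL3_11 : Nat := (nat_lit 0)
noncomputable def A43_11 : Nat := (nat_lit 0)
noncomputable def IX3_11 : Nat := (nat_lit 0)
noncomputable def OL3_11 : Nat := (nat_lit 0)
noncomputable def AL3_12 : Nat := (nat_lit 0)
noncomputable def A43_12 : Nat := (nat_lit 0)
noncomputable def IX3_12 : Nat := (nat_lit 0)
noncomputable def OL3_12 : Nat := (nat_lit 0)
noncomputable def AL3_13 : Nat := (nat_lit 0)
noncomputable def A43_13 : Nat := (nat_lit 0)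
noncomputable def IX3_13 : Nat := (nat_lit 0)
noncomputable def OL3_13 : Nat := (nat_lit 0)
noncomputable def AL3_14 : Nat := (nat_lit 0)
noncomputable def A43_14 : Nat := (nat_lit 0)
noncomputable def IX3_14 : Nat := (nat_lit 0)
noncomputable def OL3_14 : Nat := (nat_lit 0)
noncomputable def AL3_15 : Nat := (nat_lit 0)
noncomputable def A43_15 : Nat := (nat_lit 0)
noncomputable def IX3_15 : Nat := (nat_lit 0)
noncomputable def OL3_15 : Nat := (nat_lit 0)
noncomputable def AL3_16 : Nat := (nat_lit 0)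
noncomputable def A43_16 : Nat := (nat_lit 0)
noncomputable def IX3_16 : Nat := (nat_lit 0)
noncomputable def OL3_16 : Nat := (nat_lit 0)
noncomputable def AL3_17 : Nat := (nat_lit 0)
noncomputable def A43_17 : Nat := (nat_lit 0)
noncomputable def IX3_17 : Nat := (nat_lit 0)
noncomputable def OL3_17 : Nat := (nat_lit 0)
noncomputable def AL3_18 : Nat := (nat_lit 0)
noncomputable def A43_18 : Nat := (nat_lit 0)
noncomputable def IX3_18 : Nat := (nat_lit 0)
noncomputable def OL3_18 : Nat := (nat_lit 0)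
noncomputable def AL3_19 : Nat := (nat_lit 0)
noncomputable def A43_19 : Nat := (nat_lit 0)
noncomputable def IX3_19 : Nat := (nat_lit 0)
noncomputable def OL3_19 : Nat := (nat_lit 0)
noncomputable def AL3_20 : Nat := (nat_lit 0)
noncomputable def A43_20 : Nat := (nat_lit 0)
noncomputable def IX3_20 : Nat := (nat_lit 0)
noncomputable def OL3_20 : Nat := (nat_lit 0)
noncomputable def AL3_21 : Nat := (nat_lit 0)
noncomputable def A43_21 : Nat := (nat_lit 0)
noncomputable def IX3_21 : Nat := (nat_lit 0)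
noncomputable def OL3_21 : Nat := (nat_lit 0)
noncomputable def AL3_22 : Nat := (nat_lit 0)
noncomputable def A43_22 : Nat := (nat_lit 0)
noncomputable def IX3_22 : Nat := (nat_lit 0)
noncomputable def OL3_22 : Nat := (nat_lit 0)
noncomputable def AL3_23 : Nat := (nat_lit 0)
noncomputable def A43_23 : Nat := (nat_lit 0)
noncomputable def IX3_23 : Nat := (nat_lit 0)
noncomputable def OL3_23 : Nat := (nat_lit 0)
noncomputable def AL3_24 : Nat := (nat_lit 0)
noncomputable def A43_24 : Nat := (nat_lit 0)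
noncomputable def IX3_24 : Nat := (nat_lit 0)
noncomputable def OL3_24 : Nat := (nat_lit 0)
noncomputable def AL3_25 : Nat := (nat_lit 0)
noncomputable def A43_25 : Nat := (nat_lit 0)
noncomputable def IX3_25 : Nat := (nat_lit 0)
noncomputable def OL3_25 : Nat := (nat_lit 0)
noncomputable def AL3_26 : Nat := (nat_lit 0)
noncomputable def A43_26 : Nat := (nat_lit 0)
noncomputable def IX3_26 : Nat := (nat_lit 0)
noncomputable def OL3_26 : Nat := (nat_lit 0)
noncomputable def TL3 : Tl := (Tl.cons (Tr.mk AL3_0 A43_0 IX3_0 OL3_0) (Tl.cons (Tr.mk AL3_1 A43_1 IX3_1 OL3_1) (Tl.cons (Tr.mk AL3_2 A43_2 IX3_2 OL3_2) (Tl.cons (Tr.mk AL3_3 A43_3 IX3_3 OL3_3) (Tl.cons (Tr.mk AL3_4 A43_4 IX3_4 OL3_4) (Tl.cons (Tr.mk AL3_5 A43_5 IX3_5 OL3_5) (Tl.cons (Tr.mk AL3_6 A43_6 IX3_6 OL3_6) (Tl.cons (Tr.mk AL3_7 A43_7 IX3_7 OL3_7) (Tl.cons (Tr.mk AL3_8 A43_8 IX3_8 OL3_8) (Tl.cons (Tr.mk AL3_9 A43_9 IX3_9 OL3_9) (Tl.cons (Tr.mk AL3_10 A43_10 IX3_10 OL3_10) (Tl.cons (Tr.mk AL3_11 A43_11 IX3_11 OL3_11)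 (Tl.cons (Tr.mk AL3_12 A43_12 IX3_12 OL3_12) (Tl.cons (Tr.mk AL3_13 A43_13 IX3_13 OL3_13) (Tl.cons (Tr.mk AL3_14 A43_14 IX3_14 OL3_14) (Tl.cons (Tr.mk AL3_15 A43_15 IX3_15 OL3_15) (Tl.cons (Tr.mk AL3_16 A43_16 IX3_16 OL3_16) (Tl.cons (Tr.mk AL3_17 A43_17 IX3_17 OL3_17) (Tl.cons (Tr.mk AL3_18 A43_18 IX3_18 OL3_18) (Tl.cons (Tr.mk AL3_19 A43_19 IX3_19 OL3_19) (Tl.cons (Tr.mk AL3_20 A43_20 IX3_20 OL3_20) (Tl.cons (Tr.mk AL3_21 A43_21 IX3_21 OL3_21) (Tl.cons (Tr.mk AL3_22 A43_22 IX3_22 OL3_22) (Tl.cons (Tr.mk AL3_23 A43_23 IX3_23 OL3_23) (Tl.cons (Tr.mk AL3_24 A43_24 IX3_24 OL3_24) (Tl.cons (Tr.mk AL3_25 A43_25 IX3_25 OL3_25) (Tl.cons (Tr.mk AL3_26 A43_26 IX3_26 OL3_26) Tl.nil)))))))))))))))))))))))))))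

end Pool.Agent.NNr.R11_1_2_2
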