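import Pool.Agent.NNr.R11_1_2_2.D0
import Pool.Agent.NNr.R11_1_2_2.D1
import Pool.Agent.NNr.R11_1_2_2.D2
import Pool.Agent.NNr.R11_1_2_2.D3
import Pool.Agent.NNe.Slots

set_option linter.all false
set_option maxRecDepth 1000000
namespace Pool.Agent.NNr.R11_1_2_2

open Pool.Agent.NNe

def ti0_1 : tileCk (nat_lit 61) (nat_lit 7) (nat_lit 2) (nat_lit 3) (nat_lit 366) (nat_lit 11) (nat_lit 27) ZL0_1 CL0 = true := by decide +kernel
def zl0_1 : zlOK (nat_lit 366) ZL0_1 = true := by decide +kernel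
def tc0_0 : tiCov (nat_lit 1) (nat_lit 0) ZZ0 C0_0 = true := by decide +kernel
def tc0_1 : tiCov (nat_lit 1) (nat_lit 1) ZZ0 C0_1 = true := by decide +kernel
def tc0_2 : tiCov (nat_lit 1) (nat_lit 2) ZZ0 C0_2 = true := by decide +kernel
def tc0_3 : tiCov (nat_lit 1) (nat_lit 3) ZZ0 C0_3 = true := by decide +kernel
def tc0_4 : tiCov (nat_lit 1) (nat_lit 4) ZZ0 C0_4 = true := by decide +kernel
def tc0_5 : tiCov (nat_lit 1) (nat_lit 5) ZZ0 C0_5 = true := by decide +kernel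
def tc0_6 : tiCov (nat_lit 1) (nat_lit 6) ZZ0 C0_6 = true := by decide +kernel
def tc0_7 : tiCov (nat_lit 1) (nat_lit 7) ZZ0 C0_7 = true := by decide +kernel
def tc0_8 : tiCov (nat_lit 1) (nat_lit 8) ZZ0 C0_8 = true := by decide +kernel
def tc0_9 : tiCov (nat_lit 1) (nat_lit 9) ZZ0 C0_9 = true := by decide +kernel
def tc0_10 : tiCov (nat_lit 1) (nat_lit 10) ZZ0 C0_10 = true := by decide +kernel
def tc0_11 : tiCov (nat_lit 1) (nat_lit 11) ZZ0 C0_11 = true := by decide +kernel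
def tc0_12 : tiCov (nat_lit 1) (nat_lit 12) ZZ0 C0_12 = true := by decide +kernel
def tc0_13 : tiCov (nat_lit 1) (nat_lit 13) ZZ0 C0_13 = true := by decide +kernel
def tc0_14 : tiCov (nat_lit 1) (nat_lit 14) ZZ0 C0_14 = true := by decide +kernel
def tc0_15 : tiCov (nat_lit 1) (nat_lit 15) ZZ0 C0_15 = true := by decide +kernel
def tc0_16 : tiCov (nat_lit 1) (nat_lit 16) ZZ0 C0_16 = true := by decide +kernel
def tc0_17 : tiCov (nat_lit 1) (nat_lit 17) ZZ0 C0_17 = true := by decide +kernel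
def tc0_18 : tiCov (nat_lit 1) (nat_lit 18) ZZ0 C0_18 = true := by decide +kernel
def tc0_19 : tiCov (nat_lit 1) (nat_lit 19) ZZ0 C0_19 = true := by decide +kernel
def tc0_20 : tiCov (nat_lit 1) (nat_lit 20) ZZ0 C0_20 = true := by decide +kernel
def tc0_21 : tiCov (nat_lit 1) (nat_lit 21) ZZ0 C0_21 = true := by decide +kernel
def tc0_22 : tiCov (nat_lit 1) (nat_lit 22) ZZ0 C0_22 = true := by decide +kernel
def tc0_23 : tiCov (nat_lit 1) (nat_lit 23) ZZ0 C0_23 = true := by decide +kernel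
def tc0_24 : tiCov (nat_lit 1) (nat_lit 24) ZZ0 C0_24 = true := by decide +kernel
def tc0_25 : tiCov (nat_lit 1) (nat_lit 25) ZZ0 C0_25 = true := by decide +kernel
def tc0_26 : tiCov (nat_lit 1) (nat_lit 26) ZZ0 C0_26 = true := by decide +kernel
def wf1_6 : wfC (nat_lit 27) (nat_lit 2) C1_6 = true := by decide +kernel
def rf1_6 : rfCk (nat_lit 61) (nat_lit 7) (nat_lit 27) (nat_lit 2) (nat_lit 9) (nat_lit 0) (nat_lit 6) TL1 CL0 CL1 = true := by decide +kernel
def wf1_7 : wfC (nat_lit 27) (nat_lit 2) C1_7 = true := by decide +kernel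
def rf1_7 : rfCk (nat_lit 61) (nat_lit 7) (nat_lit 27) (nat_lit 2) (nat_lit 9) (nat_lit 0) (nat_lit 7) TL1 CL0 CL1 = true := by decide +kernel
def wf1_8 : wfC (nat_lit 27) (nat_lit 2) C1_8 = true := by decide +kernel
def rf1_8 : rfCk (nat_lit 61) (nat_lit 7) (nat_lit 27) (nat_lit 2) (nat_lit 9) (nat_lit 0) (nat_lit 8) TL1 CL0 CL1 = true := by decide +kernel
def wf1_9 : wfC (nat_lit 27) (nat_lit 2) C1_9 = true := by decide +kernel
def rf1_9 : rfCk (nat_lit 61) (nat_lit 7) (nat_lit 27) (nat_lit 2) (nat_lit 9) (nat_lit 0) (nat_lit 9) TL1 CL0 CL1 = true := by decide +kernel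
def wf1_10 : wfC (nat_lit 27) (nat_lit 2) C1_10 = true := by decide +kernel
def rf1_10 : rfCk (nat_lit 61) (nat_lit 7) (nat_lit 27) (nat_lit 2) (nat_lit 9) (nat_lit 0) (nat_lit 10) TL1 CL0 CL1 = true := by decide +kernel
def wf1_21 : wfC (nat_lit 27) (nat_lit 2) C1_21 = true := by decide +kernel
def rf1_21 : rfCk (nat_lit 61) (nat_lit 7) (nat_lit 27) (nat_lit 2) (nat_lit 9) (nat_lit 0) (nat_lit 21) TL1 CL0 CL1 = true := by decide +kernel
def wf1_22 : wfC (nat_lit 27) (nat_lit 2) C1_22 = true := by decide +kernel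
def rf1_22 : rfCk (nat_lit 61) (nat_lit 7) (nat_lit 27) (nat_lit 2) (nat_lit 9) (nat_lit 0) (nat_lit 22) TL1 CL0 CL1 = true := by decide +kernel
def wf1_23 : wfC (nat_lit 27) (nat_lit 2) C1_23 = true := by decide +kernel
def rf1_23 : rfCk (nat_lit 61) (nat_lit 7) (nat_lit 27) (nat_lit 2) (nat_lit 9) (nat_lit 0) (nat_lit 23) TL1 CL0 CL1 = true := by decide +kernel
def wf1_24 : wfC (nat_lit 27) (nat_lit 2) C1_24 = true := by decide +kernel
def rf1_24 : rfCk (nat_lit 61) (nat_lit 7) (nat_lit 27) (nat_lit 2) (nat_lit 9) (nat_lit 0) (nat_lit 24) TL1 CL0 CL1 = true := by decide +kernel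
def wf1_25 : wfC (nat_lit 27) (nat_lit 2) C1_25 = true := by decide +kernel
def rf1_25 : rfCk (nat_lit 61) (nat_lit 7) (nat_lit 27) (nat_lit 2) (nat_lit 9) (nat_lit 0) (nat_lit 25) TL1 CL0 CL1 = true := by decide +kernel
def ti1_0 : tileCk (nat_lit 27) (nat_lit 2) (nat_lit 1) (nat_lit 1) (nat_lit 114) (nat_lit 11) (nat_lit 27) ZL1_0 CL1 = true := by decide +kernel
def zl1_0 : zlOK (nat_lit 114) ZL1_0 = true := by decide +kernel
def tc1_6 : tiCov (nat_lit 1) (nat_lit 6) ZZ1 C1_6 = true := by decide +kernel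
def tc1_7 : tiCov (nat_lit 1) (nat_lit 7) ZZ1 C1_7 = true := by decide +kernel
def tc1_8 : tiCov (nat_lit 1) (nat_lit 8) ZZ1 C1_8 = true := by decide +kernel
def tc1_9 : tiCov (nat_lit 1) (nat_lit 9) ZZ1 C1_9 = true := by decide +kernel
def tc1_10 : tiCov (nat_lit 1) (nat_lit 10) ZZ1 C1_10 = true := by decide +kernel
def tc1_21 : tiCov (nat_lit 1) (nat_lit 21) ZZ1 C1_21 = true := by decide +kernel
def tc1_22 : tiCov (nat_lit 1) (nat_lit 22) ZZ1 C1_22 = true := by decide +kernel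
def tc1_23 : tiCov (nat_lit 1) (nat_lit 23) ZZ1 C1_23 = true := by decide +kernel
def tc1_24 : tiCov (nat_lit 1) (nat_lit 24) ZZ1 C1_24 = true := by decide +kernel
def tc1_25 : tiCov (nat_lit 1) (nat_lit 25) ZZ1 C1_25 = true := by decide +kernel
def wf2_6 : wfC (nat_lit 17) (nat_lit 2) C2_6 = true := by decide +kernel
def rf2_6 : rfCk (nat_lit 27) (nat_lit 2) (nat_lit 17) (nat_lit 2) (nat_lit 9) (nat_lit 0) (nat_lit 6) TL2 CL1 CL2 = true := by decide +kernel
def st2_6_0 : starCk (nat_lit 17) (nat_lit 2) (nat_lit 1) (nat_lit 1) (nat_lit 8) (nat_lit 8) (nat_lit 1) C2_6 = true := by decide +kernel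
def sc2_6 : stCov (nat_lit 0) (nat_lit 8) (Rl.cons (nat_lit 8) (nat_lit 8) Rl.nil) C2_6 = true := by decide +kernel
def wf2_7 : wfC (nat_lit 17) (nat_lit 2) C2_7 = true := by decide +kernel
def rf2_7 : rfCk (nat_lit 27) (nat_lit 2) (nat_lit 17) (nat_lit 2) (nat_lit 9) (nat_lit 0) (nat_lit 7) TL2 CL1 CL2 = true := by decide +kernel
def st2_7_0 : starCk (nat_lit 17) (nat_lit 2) (nat_lit 1) (nat_lit 1) (nat_lit 9) (nat_lit 20) (nat_lit 16) C2_7 = true := by decide +kernel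
def sc2_7 : stCov (nat_lit 1) (nat_lit 20) (Rl.cons (nat_lit 20) (nat_lit 9) Rl.nil) C2_7 = true := by decide +kernel
def wf2_8 : wfC (nat_lit 17) (nat_lit 2) C2_8 = true := by decide +kernel
def rf2_8 : rfCk (nat_lit 27) (nat_lit 2) (nat_lit 17) (nat_lit 2) (nat_lit 9) (nat_lit 0) (nat_lit 8) TL2 CL1 CL2 = true := by decide +kernel
def st2_8_0 : starCk (nat_lit 17) (nat_lit 2) (nat_lit 1) (nat_lit 1) (nat_lit 8) (nat_lit 44) (nat_lit 256) C2_8 = true := by decide +kernel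
def sc2_8 : stCov (nat_lit 2) (nat_lit 44) (Rl.cons (nat_lit 44) (nat_lit 8) Rl.nil) C2_8 = true := by decide +kernel
def wf2_9 : wfC (nat_lit 17) (nat_lit 2) C2_9 = true := by decide +kernel
def rf2_9 : rfCk (nat_lit 27) (nat_lit 2) (nat_lit 17) (nat_lit 2) (nat_lit 9) (nat_lit 0) (nat_lit 9) TL2 CL1 CL2 = true := by decide +kernel
def st2_9_0 : starCk (nat_lit 17) (nat_lit 2) (nat_lit 1) (nat_lit 1) (nat_lit 5) (nat_lit 44) (nat_lit 256) C2_9 = true := by decide +kernel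
def sc2_9 : stCov (nat_lit 2) (nat_lit 44) (Rl.cons (nat_lit 44) (nat_lit 5) Rl.nil) C2_9 = true := by decide +kernel
def wf2_10 : wfC (nat_lit 17) (nat_lit 2) C2_10 = true := by decide +kernel
def rf2_10 : rfCk (nat_lit 27) (nat_lit 2) (nat_lit 17) (nat_lit 2) (nat_lit 9) (nat_lit 0) (nat_lit 10) TL2 CL1 CL2 = true := by decide +kernel
def st2_10_0 : starCk (nat_lit 17) (nat_lit 2) (nat_lit 1) (nat_lit 1) (nat_lit 8) (nat_lit 8) (nat_lit 1) C2_10 = true := by decide +kernel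
def sc2_10 : stCov (nat_lit 0) (nat_lit 8) (Rl.cons (nat_lit 8) (nat_lit 8) Rl.nil) C2_10 = true := by decide +kernel
def wf2_24 : wfC (nat_lit 17) (nat_lit 2) C2_24 = true := by decide +kernel
def rf2_24 : rfCk (nat_lit 27) (nat_lit 2) (nat_lit 17) (nat_lit 2) (nat_lit 9) (nat_lit 0) (nat_lit 24) TL2 CL1 CL2 = true := by decide +kernel
def st2_24_0 : starCk (nat_lit 17) (nat_lit 2) (nat_lit 1) (nat_lit 1) (nat_lit 8) (nat_lit 20) (nat_lit 256) C2_24 = true := by decide +kernel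
def sc2_24 : stCov (nat_lit 2) (nat_lit 20) (Rl.cons (nat_lit 20) (nat_lit 8) Rl.nil) C2_24 = true := by decide +kernel
def wf2_25 : wfC (nat_lit 17) (nat_lit 2) C2_25 = true := by decide +kernel
def rf2_25 : rfCk (nat_lit 27) (nat_lit 2) (nat_lit 17) (nat_lit 2) (nat_lit 9) (nat_lit 0) (nat_lit 25) TL2 CL1 CL2 = true := by decide +kernel
def st2_25_0 : starCk (nat_lit 17) (nat_lit 2) (nat_lit 1) (nat_lit 1) (nat_lit 8) (nat_lit 20) (nat_lit 16) C2_25 = true := by decide +kernel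
def sc2_25 : stCov (nat_lit 1) (nat_lit 20) (Rl.cons (nat_lit 20) (nat_lit 8) Rl.nil) C2_25 = true := by decide +kernel
def wf3_6 : wfC (nat_lit 7) (nat_lit 1) C3_6 = true := by decide +kernel
def rf3_6 : rfCk (nat_lit 17) (nat_lit 2) (nat_lit 7) (nat_lit 1) (nat_lit 9) (nat_lit 0) (nat_lit 6) TL3 CL2 CL3 = true := by decide +kernel
def wf3_7 : wfC (nat_lit 7) (nat_lit 1) C3_7 = true := by decide +kernel
def rf3_7 : rfCk (nat_lit 17) (nat_lit 2) (nat_lit 7) (nat_lit 1) (nat_lit 9) (nat_lit 0) (nat_lit 7) TL3 CL2 CL3 = true := by decide +kernel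
def wf3_8 : wfC (nat_lit 7) (nat_lit 1) C3_8 = true := by decide +kernel
def rf3_8 : rfCk (nat_lit 17) (nat_lit 2) (nat_lit 7) (nat_lit 1) (nat_lit 9) (nat_lit 0) (nat_lit 8) TL3 CL2 CL3 = true := by decide +kernel
def wf3_9 : wfC (nat_lit 7) (nat_lit 1) C3_9 = true := by decide +kernel
def rf3_9 : rfCk (nat_lit 17) (nat_lit 2) (nat_lit 7) (nat_lit 1) (nat_lit 9) (nat_lit 0) (nat_lit 9) TL3 CL2 CL3 = true := by decide +kernel
def wf3_10 : wfC (nat_lit 7) (nat_lit 1) C3_10 = true := by decide +kernel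
def rf3_10 : rfCk (nat_lit 17) (nat_lit 2) (nat_lit 7) (nat_lit 1) (nat_lit 9) (nat_lit 0) (nat_lit 10) TL3 CL2 CL3 = true := by decide +kernel
def de3_6 : deadCk (nat_lit 7) (nat_lit 1) C3_6 = true := by decide +kernel
def de3_7 : deadCk (nat_lit 7) (nat_lit 1) C3_7 = true := by decide +kernel
def de3_8 : deadCk (nat_lit 7) (nat_lit 1) C3_8 = true := by decide +kernel
def de3_9 : deadCk (nat_lit 7) (nat_lit 1) C3_9 = true := by decide +kernel
def de3_10 : deadCk (nat_lit 7) (nat_lit 1) C3_10 = true := by decide +kernel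
def wf1_0 : wfC (nat_lit 27) (nat_lit 2) C1_0 = true := by decide +kernel
def wf1_1 : wfC (nat_lit 27) (nat_lit 2) C1_1 = true := by decide +kernel
def wf1_2 : wfC (nat_lit 27) (nat_lit 2) C1_2 = true := by decide +kernel
def wf1_3 : wfC (nat_lit 27) (nat_lit 2) C1_3 = true := by decide +kernel
def wf1_4 : wfC (nat_lit 27) (nat_lit 2) C1_4 = true := by decide +kernel
def wf1_5 : wfC (nat_lit 27) (nat_lit 2) C1_5 = true := by decide +kernel
def wf1_11 : wfC (nat_lit 27) (nat_lit 2) C1_11 = true := by decide +kernel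
def wf1_12 : wfC (nat_lit 27) (nat_lit 2) C1_12 = true := by decide +kernel
def wf1_13 : wfC (nat_lit 27) (nat_lit 2) C1_13 = true := by decide +kernel
def wf1_14 : wfC (nat_lit 27) (nat_lit 2) C1_14 = true := by decide +kernel
def wf1_15 : wfC (nat_lit 27) (nat_lit 2) C1_15 = true := by decide +kernel
def wf1_16 : wfC (nat_lit 27) (nat_lit 2) C1_16 = true := by decide +kernel
def wf1_17 : wfC (nat_lit 27) (nat_lit 2) C1_17 = true := by decide +kernel
def wf1_18 : wfC (nat_lit 27) (nat_lit 2) C1_18 = true := by decide +kernel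
def wf1_19 : wfC (nat_lit 27) (nat_lit 2) C1_19 = true := by decide +kernel
def wf1_20 : wfC (nat_lit 27) (nat_lit 2) C1_20 = true := by decide +kernel
def wf1_26 : wfC (nat_lit 27) (nat_lit 2) C1_26 = true := by decide +kernel
def rf1_0 : rfCk (nat_lit 61) (nat_lit 7) (nat_lit 27) (nat_lit 2) (nat_lit 9) (nat_lit 0) (nat_lit 0) TL1 CL0 CL1 = true := by decide +kernel
def rf1_1 : rfCk (nat_lit 61) (nat_lit 7) (nat_lit 27) (nat_lit 2) (nat_lit 9) (nat_lit 0) (nat_lit 1) TL1 CL0 CL1 = true := by decide +kernel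
def rf1_2 : rfCk (nat_lit 61) (nat_lit 7) (nat_lit 27) (nat_lit 2) (nat_lit 9) (nat_lit 0) (nat_lit 2) TL1 CL0 CL1 = true := by decide +kernel
def rf1_3 : rfCk (nat_lit 61) (nat_lit 7) (nat_lit 27) (nat_lit 2) (nat_lit 9) (nat_lit 0) (nat_lit 3) TL1 CL0 CL1 = true := by decide +kernel
def rf1_4 : rfCk (nat_lit 61) (nat_lit 7) (nat_lit 27) (nat_lit 2) (nat_lit 9) (nat_lit 0) (nat_lit 4) TL1 CL0 CL1 = true := by decide +kernel
def rf1_5 : rfCk (nat_lit 61) (nat_lit 7) (nat_lit 27) (nat_lit 2) (nat_lit 9) (nat_lit 0) (nat_lit 5) TL1 CL0 CL1 = true := by decide +kernel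
def rf1_11 : rfCk (nat_lit 61) (nat_lit 7) (nat_lit 27) (nat_lit 2) (nat_lit 9) (nat_lit 0) (nat_lit 11) TL1 CL0 CL1 = true := by decide +kernel
def rf1_12 : rfCk (nat_lit 61) (nat_lit 7) (nat_lit 27) (nat_lit 2) (nat_lit 9) (nat_lit 0) (nat_lit 12) TL1 CL0 CL1 = true := by decide +kernel
def rf1_13 : rfCk (nat_lit 61) (nat_lit 7) (nat_lit 27) (nat_lit 2) (nat_lit 9) (nat_lit 0) (nat_lit 13) TL1 CL0 CL1 = true := by decide +kernel
def rf1_14 : rfCk (nat_lit 61) (nat_lit 7) (nat_lit 27) (nat_lit 2) (nat_lit 9) (nat_lit 0) (nat_lit 14) TL1 CL0 CL1 = true := by decide +kernel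
def rf1_15 : rfCk (nat_lit 61) (nat_lit 7) (nat_lit 27) (nat_lit 2) (nat_lit 9) (nat_lit 0) (nat_lit 15) TL1 CL0 CL1 = true := by decide +kernel
def rf1_16 : rfCk (nat_lit 61) (nat_lit 7) (nat_lit 27) (nat_lit 2) (nat_lit 9) (nat_lit 0) (nat_lit 16) TL1 CL0 CL1 = true := by decide +kernel
def rf1_17 : rfCk (nat_lit 61) (nat_lit 7) (nat_lit 27) (nat_lit 2) (nat_lit 9) (nat_lit 0) (nat_lit 17) TL1 CL0 CL1 = true := by decide +kernel
def rf1_18 : rfCk (nat_lit 61) (nat_lit 7) (nat_lit 27) (nat_lit 2) (nat_lit 9) (nat_lit 0) (nat_lit 18) TL1 CL0 CL1 = true := by decide +kernel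
def rf1_19 : rfCk (nat_lit 61) (nat_lit 7) (nat_lit 27) (nat_lit 2) (nat_lit 9) (nat_lit 0) (nat_lit 19) TL1 CL0 CL1 = true := by decide +kernel
def rf1_20 : rfCk (nat_lit 61) (nat_lit 7) (nat_lit 27) (nat_lit 2) (nat_lit 9) (nat_lit 0) (nat_lit 20) TL1 CL0 CL1 = true := by decide +kernel
def rf1_26 : rfCk (nat_lit 61) (nat_lit 7) (nat_lit 27) (nat_lit 2) (nat_lit 9) (nat_lit 0) (nat_lit 26) TL1 CL0 CL1 = true := by decide +kernel
def sc1_0 : stCov (nat_lit 2) (nat_lit 0) Rl.nil C1_0 = true := by decide +kernel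
def sc1_1 : stCov (nat_lit 1) (nat_lit 0) Rl.nil C1_1 = true := by decide +kernel
def sc1_2 : stCov (nat_lit 1) (nat_lit 0) Rl.nil C1_2 = true := by decide +kernel
def sc1_3 : stCov (nat_lit 1) (nat_lit 0) Rl.nil C1_3 = true := by decide +kernel
def sc1_4 : stCov (nat_lit 1) (nat_lit 0) Rl.nil C1_4 = true := by decide +kernel
def sc1_5 : stCov (nat_lit 1) (nat_lit 0) Rl.nil C1_5 = true := by decide +kernel
def sc1_6 : stCov (nat_lit 0) (nat_lit 0) (Rl.cons (nat_lit 0) (nat_lit 39) Rl.nil) C1_6 = true := by decide +kernel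
def sc1_7 : stCov (nat_lit 0) (nat_lit 0) (Rl.cons (nat_lit 0) (nat_lit 77) Rl.nil) C1_7 = true := by decide +kernel
def sc1_8 : stCov (nat_lit 0) (nat_lit 0) (Rl.cons (nat_lit 0) (nat_lit 88) Rl.nil) C1_8 = true := by decide +kernel
def sc1_9 : stCov (nat_lit 0) (nat_lit 0) (Rl.cons (nat_lit 0) (nat_lit 77) Rl.nil) C1_9 = true := by decide +kernel
def sc1_10 : stCov (nat_lit 0) (nat_lit 0) (Rl.cons (nat_lit 0) (nat_lit 39) Rl.nil) C1_10 = true := by decide +kernel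
def sc1_11 : stCov (nat_lit 0) (nat_lit 0) Rl.nil C1_11 = true := by decide +kernel
def sc1_12 : stCov (nat_lit 0) (nat_lit 0) Rl.nil C1_12 = true := by decide +kernel
def sc1_13 : stCov (nat_lit 0) (nat_lit 0) Rl.nil C1_13 = true := by decide +kernel
def sc1_14 : stCov (nat_lit 0) (nat_lit 0) Rl.nil C1_14 = true := by decide +kernel
def sc1_15 : stCov (nat_lit 0) (nat_lit 0) Rl.nil C1_15 = true := by decide +kernel
def sc1_16 : stCov (nat_lit 0) (nat_lit 0) Rl.nil C1_16 = true := by decide +kernel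
def sc1_17 : stCov (nat_lit 0) (nat_lit 0) Rl.nil C1_17 = true := by decide +kernel
def sc1_18 : stCov (nat_lit 0) (nat_lit 0) Rl.nil C1_18 = true := by decide +kernel
def sc1_19 : stCov (nat_lit 0) (nat_lit 0) Rl.nil C1_19 = true := by decide +kernel
def sc1_20 : stCov (nat_lit 0) (nat_lit 0) Rl.nil C1_20 = true := by decide +kernel
def sc1_21 : stCov (nat_lit 0) (nat_lit 0) (Rl.cons (nat_lit 0) (nat_lit 104) Rl.nil) C1_21 = true := by decide +kernel
def sc1_22 : stCov (nat_lit 0) (nat_lit 0) (Rl.cons (nat_lit 0) (nat_lit 184) Rl.nil) C1_22 = true := by decide +kernel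
def sc1_23 : stCov (nat_lit 0) (nat_lit 0) (Rl.cons (nat_lit 0) (nat_lit 104) Rl.nil) C1_23 = true := by decide +kernel
def sc1_24 : stCov (nat_lit 0) (nat_lit 0) (Rl.cons (nat_lit 0) (nat_lit 136) Rl.nil) C1_24 = true := by decide +kernel
def sc1_25 : stCov (nat_lit 0) (nat_lit 0) (Rl.cons (nat_lit 0) (nat_lit 136) Rl.nil) C1_25 = true := by decide +kernel
def sc1_26 : stCov (nat_lit 0) (nat_lit 0) Rl.nil C1_26 = true := by decide +kernel
def tc1_0 : tiCov (nat_lit 1) (nat_lit 0) ZZ1 C1_0 = true := by decide +kernel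
def tc1_1 : tiCov (nat_lit 1) (nat_lit 1) ZZ1 C1_1 = true := by decide +kernel
def tc1_2 : tiCov (nat_lit 1) (nat_lit 2) ZZ1 C1_2 = true := by decide +kernel
def tc1_3 : tiCov (nat_lit 1) (nat_lit 3) ZZ1 C1_3 = true := by decide +kernel
def tc1_4 : tiCov (nat_lit 1) (nat_lit 4) ZZ1 C1_4 = true := by decide +kernel
def tc1_5 : tiCov (nat_lit 1) (nat_lit 5) ZZ1 C1_5 = true := by decide +kernel
def tc1_11 : tiCov (nat_lit 1) (nat_lit 11) ZZ1 C1_11 = true := by decide +kernel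
def tc1_12 : tiCov (nat_lit 1) (nat_lit 12) ZZ1 C1_12 = true := by decide +kernel
def tc1_13 : tiCov (nat_lit 1) (nat_lit 13) ZZ1 C1_13 = true := by decide +kernel
def tc1_14 : tiCov (nat_lit 1) (nat_lit 14) ZZ1 C1_14 = true := by decide +kernel
def tc1_15 : tiCov (nat_lit 1) (nat_lit 15) ZZ1 C1_15 = true := by decide +kernel
def tc1_16 : tiCov (nat_lit 1) (nat_lit 16) ZZ1 C1_16 = true := by decide +kernel
def tc1_17 : tiCov (nat_lit 1) (nat_lit 17) ZZ1 C1_17 = true := by decide +kernel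
def tc1_18 : tiCov (nat_lit 1) (nat_lit 18) ZZ1 C1_18 = true := by decide +kernel
def tc1_19 : tiCov (nat_lit 1) (nat_lit 19) ZZ1 C1_19 = true := by decide +kernel
def tc1_20 : tiCov (nat_lit 1) (nat_lit 20) ZZ1 C1_20 = true := by decide +kernel
def tc1_26 : tiCov (nat_lit 1) (nat_lit 26) ZZ1 C1_26 = true := by decide +kernel
def wf2_0 : wfC (nat_lit 17) (nat_lit 2) C2_0 = true := by decide +kernel
def wf2_1 : wfC (nat_lit 17) (nat_lit 2) C2_1 = true := by decide +kernel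
def wf2_2 : wfC (nat_lit 17) (nat_lit 2) C2_2 = true := by decide +kernel
def wf2_3 : wfC (nat_lit 17) (nat_lit 2) C2_3 = true := by decide +kernel
def wf2_4 : wfC (nat_lit 17) (nat_lit 2) C2_4 = true := by decide +kernel
def wf2_5 : wfC (nat_lit 17) (nat_lit 2) C2_5 = true := by decide +kernel
def wf2_11 : wfC (nat_lit 17) (nat_lit 2) C2_11 = true := by decide +kernel
def wf2_12 : wfC (nat_lit 17) (nat_lit 2) C2_12 = true := by decide +kernel
def wf2_13 : wfC (nat_lit 17) (nat_lit 2) C2_13 = true := by decide +kernel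
def wf2_14 : wfC (nat_lit 17) (nat_lit 2) C2_14 = true := by decide +kernel
def wf2_15 : wfC (nat_lit 17) (nat_lit 2) C2_15 = true := by decide +kernel
def wf2_16 : wfC (nat_lit 17) (nat_lit 2) C2_16 = true := by decide +kernel
def wf2_17 : wfC (nat_lit 17) (nat_lit 2) C2_17 = true := by decide +kernel
def wf2_18 : wfC (nat_lit 17) (nat_lit 2) C2_18 = true := by decide +kernel
def wf2_19 : wfC (nat_lit 17) (nat_lit 2) C2_19 = true := by decide +kernel
def wf2_20 : wfC (nat_lit 17) (nat_lit 2) C2_20 = true := by decide +kernel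
def wf2_21 : wfC (nat_lit 17) (nat_lit 2) C2_21 = true := by decide +kernel
def wf2_22 : wfC (nat_lit 17) (nat_lit 2) C2_22 = true := by decide +kernel
def wf2_23 : wfC (nat_lit 17) (nat_lit 2) C2_23 = true := by decide +kernel
def wf2_26 : wfC (nat_lit 17) (nat_lit 2) C2_26 = true := by decide +kernel
def rf2_0 : rfCk (nat_lit 27) (nat_lit 2) (nat_lit 17) (nat_lit 2) (nat_lit 9) (nat_lit 0) (nat_lit 0) TL2 CL1 CL2 = true := by decide +kernel
def rf2_1 : rfCk (nat_lit 27) (nat_lit 2) (nat_lit 17) (nat_lit 2) (nat_lit 9) (nat_lit 0) (nat_lit 1) TL2 CL1 CL2 = true := by decide +kernel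
def rf2_2 : rfCk (nat_lit 27) (nat_lit 2) (nat_lit 17) (nat_lit 2) (nat_lit 9) (nat_lit 0) (nat_lit 2) TL2 CL1 CL2 = true := by decide +kernel
def rf2_3 : rfCk (nat_lit 27) (nat_lit 2) (nat_lit 17) (nat_lit 2) (nat_lit 9) (nat_lit 0) (nat_lit 3) TL2 CL1 CL2 = true := by decide +kernel
def rf2_4 : rfCk (nat_lit 27) (nat_lit 2) (nat_lit 17) (nat_lit 2) (nat_lit 9) (nat_lit 0) (nat_lit 4) TL2 CL1 CL2 = true := by decide +kernel
def rf2_5 : rfCk (nat_lit 27) (nat_lit 2) (nat_lit 17) (nat_lit 2) (nat_lit 9) (nat_lit 0) (nat_lit 5) TL2 CL1 CL2 = true := by decide +kernel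
def rf2_11 : rfCk (nat_lit 27) (nat_lit 2) (nat_lit 17) (nat_lit 2) (nat_lit 9) (nat_lit 0) (nat_lit 11) TL2 CL1 CL2 = true := by decide +kernel
def rf2_12 : rfCk (nat_lit 27) (nat_lit 2) (nat_lit 17) (nat_lit 2) (nat_lit 9) (nat_lit 0) (nat_lit 12) TL2 CL1 CL2 = true := by decide +kernel
def rf2_13 : rfCk (nat_lit 27) (nat_lit 2) (nat_lit 17) (nat_lit 2) (nat_lit 9) (nat_lit 0) (nat_lit 13) TL2 CL1 CL2 = true := by decide +kernel
def rf2_14 : rfCk (nat_lit 27) (nat_lit 2) (nat_lit 17) (nat_lit 2) (nat_lit 9) (nat_lit 0) (nat_lit 14) TL2 CL1 CL2 = true := by decide +kernel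
def rf2_15 : rfCk (nat_lit 27) (nat_lit 2) (nat_lit 17) (nat_lit 2) (nat_lit 9) (nat_lit 0) (nat_lit 15) TL2 CL1 CL2 = true := by decide +kernel
def rf2_16 : rfCk (nat_lit 27) (nat_lit 2) (nat_lit 17) (nat_lit 2) (nat_lit 9) (nat_lit 0) (nat_lit 16) TL2 CL1 CL2 = true := by decide +kernel
def rf2_17 : rfCk (nat_lit 27) (nat_lit 2) (nat_lit 17) (nat_lit 2) (nat_lit 9) (nat_lit 0) (nat_lit 17) TL2 CL1 CL2 = true := by decide +kernel
def rf2_18 : rfCk (nat_lit 27) (nat_lit 2) (nat_lit 17) (nat_lit 2) (nat_lit 9) (nat_lit 0) (nat_lit 18) TL2 CL1 CL2 = true := by decide +kernel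
def rf2_19 : rfCk (nat_lit 27) (nat_lit 2) (nat_lit 17) (nat_lit 2) (nat_lit 9) (nat_lit 0) (nat_lit 19) TL2 CL1 CL2 = true := by decide +kernel
def rf2_20 : rfCk (nat_lit 27) (nat_lit 2) (nat_lit 17) (nat_lit 2) (nat_lit 9) (nat_lit 0) (nat_lit 20) TL2 CL1 CL2 = true := by decide +kernel
def rf2_21 : rfCk (nat_lit 27) (nat_lit 2) (nat_lit 17) (nat_lit 2) (nat_lit 9) (nat_lit 0) (nat_lit 21) TL2 CL1 CL2 = true := by decide +kernel
def rf2_22 : rfCk (nat_lit 27) (nat_lit 2) (nat_lit 17) (nat_lit 2) (nat_lit 9) (nat_lit 0) (nat_lit 22) TL2 CL1 CL2 = true := by decide +kernel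
def rf2_23 : rfCk (nat_lit 27) (nat_lit 2) (nat_lit 17) (nat_lit 2) (nat_lit 9) (nat_lit 0) (nat_lit 23) TL2 CL1 CL2 = true := by decide +kernel
def rf2_26 : rfCk (nat_lit 27) (nat_lit 2) (nat_lit 17) (nat_lit 2) (nat_lit 9) (nat_lit 0) (nat_lit 26) TL2 CL1 CL2 = true := by decide +kernel
def zl2_0 : zlOK (nat_lit 68) ZL2_0 = true := by decide +kernel
def sc2_0 : stCov (nat_lit 2) (nat_lit 0) Rl.nil C2_0 = true := by decide +kernel
def sc2_1 : stCov (nat_lit 1) (nat_lit 0) Rl.nil C2_1 = true := by decide +kernel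
def sc2_2 : stCov (nat_lit 1) (nat_lit 0) Rl.nil C2_2 = true := by decide +kernel
def sc2_3 : stCov (nat_lit 1) (nat_lit 0) Rl.nil C2_3 = true := by decide +kernel
def sc2_4 : stCov (nat_lit 1) (nat_lit 0) Rl.nil C2_4 = true := by decide +kernel
def sc2_5 : stCov (nat_lit 1) (nat_lit 0) Rl.nil C2_5 = true := by decide +kernel
def sc2_11 : stCov (nat_lit 0) (nat_lit 0) Rl.nil C2_11 = true := by decide +kernel
def sc2_12 : stCov (nat_lit 0) (nat_lit 0) Rl.nil C2_12 = true := by decide +kernel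
def sc2_13 : stCov (nat_lit 0) (nat_lit 0) Rl.nil C2_13 = true := by decide +kernel
def sc2_14 : stCov (nat_lit 0) (nat_lit 0) Rl.nil C2_14 = true := by decide +kernel
def sc2_15 : stCov (nat_lit 0) (nat_lit 0) Rl.nil C2_15 = true := by decide +kernel
def sc2_16 : stCov (nat_lit 0) (nat_lit 0) Rl.nil C2_16 = true := by decide +kernel
def sc2_17 : stCov (nat_lit 0) (nat_lit 0) Rl.nil C2_17 = true := by decide +kernel
def sc2_18 : stCov (nat_lit 0) (nat_lit 0) Rl.nil C2_18 = true := by decide +kernel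
def sc2_19 : stCov (nat_lit 0) (nat_lit 0) Rl.nil C2_19 = true := by decide +kernel
def sc2_20 : stCov (nat_lit 0) (nat_lit 0) Rl.nil C2_20 = true := by decide +kernel
def sc2_21 : stCov (nat_lit 0) (nat_lit 0) Rl.nil C2_21 = true := by decide +kernel
def sc2_22 : stCov (nat_lit 0) (nat_lit 0) Rl.nil C2_22 = true := by decide +kernel
def sc2_23 : stCov (nat_lit 0) (nat_lit 0) Rl.nil C2_23 = true := by decide +kernel
def sc2_26 : stCov (nat_lit 0) (nat_lit 0) Rl.nil C2_26 = true := by decide +kernel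
def tc2_0 : tiCov (nat_lit 1) (nat_lit 0) ZZ2 C2_0 = true := by decide +kernel
def tc2_1 : tiCov (nat_lit 1) (nat_lit 1) ZZ2 C2_1 = true := by decide +kernel
def tc2_2 : tiCov (nat_lit 1) (nat_lit 2) ZZ2 C2_2 = true := by decide +kernel
def tc2_3 : tiCov (nat_lit 1) (nat_lit 3) ZZ2 C2_3 = true := by decide +kernel
def tc2_4 : tiCov (nat_lit 1) (nat_lit 4) ZZ2 C2_4 = true := by decide +kernel
def tc2_5 : tiCov (nat_lit 1) (nat_lit 5) ZZ2 C2_5 = true := by decide +kernel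
def tc2_6 : tiCov (nat_lit 1) (nat_lit 6) ZZ2 C2_6 = true := by decide +kernel
def tc2_7 : tiCov (nat_lit 1) (nat_lit 7) ZZ2 C2_7 = true := by decide +kernel
def tc2_8 : tiCov (nat_lit 1) (nat_lit 8) ZZ2 C2_8 = true := by decide +kernel
def tc2_9 : tiCov (nat_lit 1) (nat_lit 9) ZZ2 C2_9 = true := by decide +kernel
def tc2_10 : tiCov (nat_lit 1) (nat_lit 10) ZZ2 C2_10 = true := by decide +kernel
def tc2_11 : tiCov (nat_lit 1) (nat_lit 11) ZZ2 C2_11 = true := by decide +kernel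
def tc2_12 : tiCov (nat_lit 1) (nat_lit 12) ZZ2 C2_12 = true := by decide +kernel
def tc2_13 : tiCov (nat_lit 1) (nat_lit 13) ZZ2 C2_13 = true := by decide +kernel
def tc2_14 : tiCov (nat_lit 1) (nat_lit 14) ZZ2 C2_14 = true := by decide +kernel
def tc2_15 : tiCov (nat_lit 1) (nat_lit 15) ZZ2 C2_15 = true := by decide +kernel
def tc2_16 : tiCov (nat_lit 1) (nat_lit 16) ZZ2 C2_16 = true := by decide +kernel
def tc2_17 : tiCov (nat_lit 1) (nat_lit 17) ZZ2 C2_17 = true := by decide +kernel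
def tc2_18 : tiCov (nat_lit 1) (nat_lit 18) ZZ2 C2_18 = true := by decide +kernel
def tc2_19 : tiCov (nat_lit 1) (nat_lit 19) ZZ2 C2_19 = true := by decide +kernel
def tc2_20 : tiCov (nat_lit 1) (nat_lit 20) ZZ2 C2_20 = true := by decide +kernel
def tc2_21 : tiCov (nat_lit 1) (nat_lit 21) ZZ2 C2_21 = true := by decide +kernel
def tc2_22 : tiCov (nat_lit 1) (nat_lit 22) ZZ2 C2_22 = true := by decide +kernel
def tc2_23 : tiCov (nat_lit 1) (nat_lit 23) ZZ2 C2_23 = true := by decide +kernel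
def tc2_24 : tiCov (nat_lit 1) (nat_lit 24) ZZ2 C2_24 = true := by decide +kernel
def tc2_25 : tiCov (nat_lit 1) (nat_lit 25) ZZ2 C2_25 = true := by decide +kernel
def tc2_26 : tiCov (nat_lit 1) (nat_lit 26) ZZ2 C2_26 = true := by decide +kernel
def wf3_0 : wfC (nat_lit 7) (nat_lit 1) C3_0 = true := by decide +kernel
def wf3_1 : wfC (nat_lit 7) (nat_lit 1) C3_1 = true := by decide +kernel
def wf3_2 : wfC (nat_lit 7) (nat_lit 1) C3_2 = true := by decide +kernel
def wf3_3 : wfC (nat_lit 7) (nat_lit 1) C3_3 = true := by decide +kernel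
def wf3_4 : wfC (nat_lit 7) (nat_lit 1) C3_4 = true := by decide +kernel
def wf3_5 : wfC (nat_lit 7) (nat_lit 1) C3_5 = true := by decide +kernel
def wf3_11 : wfC (nat_lit 7) (nat_lit 1) C3_11 = true := by decide +kernel
def wf3_12 : wfC (nat_lit 7) (nat_lit 1) C3_12 = true := by decide +kernel
def wf3_13 : wfC (nat_lit 7) (nat_lit 1) C3_13 = true := by decide +kernel
def wf3_14 : wfC (nat_lit 7) (nat_lit 1) C3_14 = true := by decide +kernel
def wf3_15 : wfC (nat_lit 7) (nat_lit 1) C3_15 = true := by decide +kernel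
def wf3_16 : wfC (nat_lit 7) (nat_lit 1) C3_16 = true := by decide +kernel
def wf3_17 : wfC (nat_lit 7) (nat_lit 1) C3_17 = true := by decide +kernel
def wf3_18 : wfC (nat_lit 7) (nat_lit 1) C3_18 = true := by decide +kernel
def wf3_19 : wfC (nat_lit 7) (nat_lit 1) C3_19 = true := by decide +kernel
def wf3_20 : wfC (nat_lit 7) (nat_lit 1) C3_20 = true := by decide +kernel
def wf3_21 : wfC (nat_lit 7) (nat_lit 1) C3_21 = true := by decide +kernel
def wf3_22 : wfC (nat_lit 7) (nat_lit 1) C3_22 = true := by decide +kernel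
def wf3_23 : wfC (nat_lit 7) (nat_lit 1) C3_23 = true := by decide +kernel
def wf3_24 : wfC (nat_lit 7) (nat_lit 1) C3_24 = true := by decide +kernel
def wf3_25 : wfC (nat_lit 7) (nat_lit 1) C3_25 = true := by decide +kernel
def wf3_26 : wfC (nat_lit 7) (nat_lit 1) C3_26 = true := by decide +kernel
def rf3_0 : rfCk (nat_lit 17) (nat_lit 2) (nat_lit 7) (nat_lit 1) (nat_lit 9) (nat_lit 0) (nat_lit 0) TL3 CL2 CL3 = true := by decide +kernel
def rf3_1 : rfCk (nat_lit 17) (nat_lit 2) (nat_lit 7) (nat_lit 1) (nat_lit 9) (nat_lit 0) (nat_lit 1) TL3 CL2 CL3 = true := by decide +kernel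
def rf3_2 : rfCk (nat_lit 17) (nat_lit 2) (nat_lit 7) (nat_lit 1) (nat_lit 9) (nat_lit 0) (nat_lit 2) TL3 CL2 CL3 = true := by decide +kernel
def rf3_3 : rfCk (nat_lit 17) (nat_lit 2) (nat_lit 7) (nat_lit 1) (nat_lit 9) (nat_lit 0) (nat_lit 3) TL3 CL2 CL3 = true := by decide +kernel
def rf3_4 : rfCk (nat_lit 17) (nat_lit 2) (nat_lit 7) (nat_lit 1) (nat_lit 9) (nat_lit 0) (nat_lit 4) TL3 CL2 CL3 = true := by decide +kernel
def rf3_5 : rfCk (nat_lit 17) (nat_lit 2) (nat_lit 7) (nat_lit 1) (nat_lit 9) (nat_lit 0) (nat_lit 5) TL3 CL2 CL3 = true := by decide +kernel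
def rf3_11 : rfCk (nat_lit 17) (nat_lit 2) (nat_lit 7) (nat_lit 1) (nat_lit 9) (nat_lit 0) (nat_lit 11) TL3 CL2 CL3 = true := by decide +kernel
def rf3_12 : rfCk (nat_lit 17) (nat_lit 2) (nat_lit 7) (nat_lit 1) (nat_lit 9) (nat_lit 0) (nat_lit 12) TL3 CL2 CL3 = true := by decide +kernel
def rf3_13 : rfCk (nat_lit 17) (nat_lit 2) (nat_lit 7) (nat_lit 1) (nat_lit 9) (nat_lit 0) (nat_lit 13) TL3 CL2 CL3 = true := by decide +kernel
def rf3_14 : rfCk (nat_lit 17) (nat_lit 2) (nat_lit 7) (nat_lit 1) (nat_lit 9) (nat_lit 0) (nat_lit 14) TL3 CL2 CL3 = true := by decide +kernel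
def rf3_15 : rfCk (nat_lit 17) (nat_lit 2) (nat_lit 7) (nat_lit 1) (nat_lit 9) (nat_lit 0) (nat_lit 15) TL3 CL2 CL3 = true := by decide +kernel
def rf3_16 : rfCk (nat_lit 17) (nat_lit 2) (nat_lit 7) (nat_lit 1) (nat_lit 9) (nat_lit 0) (nat_lit 16) TL3 CL2 CL3 = true := by decide +kernel
def rf3_17 : rfCk (nat_lit 17) (nat_lit 2) (nat_lit 7) (nat_lit 1) (nat_lit 9) (nat_lit 0) (nat_lit 17) TL3 CL2 CL3 = true := by decide +kernel
def rf3_18 : rfCk (nat_lit 17) (nat_lit 2) (nat_lit 7) (nat_lit 1) (nat_lit 9) (nat_lit 0) (nat_lit 18) TL3 CL2 CL3 = true := by decide +kernel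
def rf3_19 : rfCk (nat_lit 17) (nat_lit 2) (nat_lit 7) (nat_lit 1) (nat_lit 9) (nat_lit 0) (nat_lit 19) TL3 CL2 CL3 = true := by decide +kernel
def rf3_20 : rfCk (nat_lit 17) (nat_lit 2) (nat_lit 7) (nat_lit 1) (nat_lit 9) (nat_lit 0) (nat_lit 20) TL3 CL2 CL3 = true := by decide +kernel
def rf3_21 : rfCk (nat_lit 17) (nat_lit 2) (nat_lit 7) (nat_lit 1) (nat_lit 9) (nat_lit 0) (nat_lit 21) TL3 CL2 CL3 = true := by decide +kernel
def rf3_22 : rfCk (nat_lit 17) (nat_lit 2) (nat_lit 7) (nat_lit 1) (nat_lit 9) (nat_lit 0) (nat_lit 22) TL3 CL2 CL3 = true := by decide +kernel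
def rf3_23 : rfCk (nat_lit 17) (nat_lit 2) (nat_lit 7) (nat_lit 1) (nat_lit 9) (nat_lit 0) (nat_lit 23) TL3 CL2 CL3 = true := by decide +kernel
def rf3_24 : rfCk (nat_lit 17) (nat_lit 2) (nat_lit 7) (nat_lit 1) (nat_lit 9) (nat_lit 0) (nat_lit 24) TL3 CL2 CL3 = true := by decide +kernel
def rf3_25 : rfCk (nat_lit 17) (nat_lit 2) (nat_lit 7) (nat_lit 1) (nat_lit 9) (nat_lit 0) (nat_lit 25) TL3 CL2 CL3 = true := by decide +kernel
def rf3_26 : rfCk (nat_lit 17) (nat_lit 2) (nat_lit 7) (nat_lit 1) (nat_lit 9) (nat_lit 0) (nat_lit 26) TL3 CL2 CL3 = true := by decide +kernel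
def de3_0 : deadCk (nat_lit 7) (nat_lit 1) C3_0 = true := by decide +kernel
def de3_1 : deadCk (nat_lit 7) (nat_lit 1) C3_1 = true := by decide +kernel
def de3_2 : deadCk (nat_lit 7) (nat_lit 1) C3_2 = true := by decide +kernel
def de3_3 : deadCk (nat_lit 7) (nat_lit 1) C3_3 = true := by decide +kernel
def de3_4 : deadCk (nat_lit 7) (nat_lit 1) C3_4 = true := by decide +kernel
def de3_5 : deadCk (nat_lit 7) (nat_lit 1) C3_5 = true := by decide +kernel
def de3_11 : deadCk (nat_lit 7) (nat_lit 1) C3_11 = true := by decide +kernel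
def de3_12 : deadCk (nat_lit 7) (nat_lit 1) C3_12 = true := by decide +kernel
def de3_13 : deadCk (nat_lit 7) (nat_lit 1) C3_13 = true := by decide +kernel
def de3_14 : deadCk (nat_lit 7) (nat_lit 1) C3_14 = true := by decide +kernel
def de3_15 : deadCk (nat_lit 7) (nat_lit 1) C3_15 = true := by decide +kernel
def de3_16 : deadCk (nat_lit 7) (nat_lit 1) C3_16 = true := by decide +kernel
def de3_17 : deadCk (nat_lit 7) (nat_lit 1) C3_17 = true := by decide +kernel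
def de3_18 : deadCk (nat_lit 7) (nat_lit 1) C3_18 = true := by decide +kernel
def de3_19 : deadCk (nat_lit 7) (nat_lit 1) C3_19 = true := by decide +kernel
def de3_20 : deadCk (nat_lit 7) (nat_lit 1) C3_20 = true := by decide +kernel
def de3_21 : deadCk (nat_lit 7) (nat_lit 1) C3_21 = true := by decide +kernel
def de3_22 : deadCk (nat_lit 7) (nat_lit 1) C3_22 = true := by decide +kernel
def de3_23 : deadCk (nat_lit 7) (nat_lit 1) C3_23 = true := by decide +kernel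
def de3_24 : deadCk (nat_lit 7) (nat_lit 1) C3_24 = true := by decide +kernel
def de3_25 : deadCk (nat_lit 7) (nat_lit 1) C3_25 = true := by decide +kernel
def de3_26 : deadCk (nat_lit 7) (nat_lit 1) C3_26 = true := by decide +kernel

end Pool.Agent.NNr.R11_1_2_2
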